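import Pool.Agent.helper26.EC.SpecS

set_option autoImplicit false

namespace Pool.Agent.EC

open Finset ArithmeticFunction
open Pool.Agent.RLS (Dat)

/-- `ldn r` is a lower bound of `10^12 log ((r+1)/r)` -/
private theorem NHL_ldn (r : ℕ) (hr : 1 ≤ r) :
    (ldn r : ℝ) ≤ 10 ^ 12 * Real.log (((r : ℝ) + 1) / r) := by
  have hr0 : (0 : ℝ) < (r : ℝ) := by exact_mod_cast hr
  have h1 : (ldn r : ℝ) ≤ (2 * 10 ^ 12) / (2 * (r : ℝ) + 1) := by
    unfold ldn
    have h := Nat.cast_div_le (α := ℝ) (m := 2 * 10 ^ 12) (n := 2 * r + 1)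
    push_cast at h
    exact_mod_cast h
  have hx : (0 : ℝ) < 1 / (r : ℝ) := by positivity
  have h2 := Real.lt_log_one_add_of_pos hx
  have h3 : 2 * (1 / (r : ℝ)) / (1 / (r : ℝ) + 2) = 2 / (2 * (r : ℝ) + 1) := by
    field_simp
    ring
  have h4 : (1 : ℝ) + 1 / (r : ℝ) = ((r : ℝ) + 1) / r := by
    field_simp
  rw [h3, h4] at h2
  calc (ldn r : ℝ) ≤ (2 * 10 ^ 12) / (2 * (r : ℝ) + 1) := h1
    _ = 10 ^ 12 * (2 / (2 * (r : ℝ) + 1)) := by ring
    _ ≤ 10 ^ 12 * Real.log (((r : ℝ) + 1) / r) := by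
        have := h2.le
        nlinarith

private theorem NHL_sdn (a : ℕ) (ha : 1 ≤ a) (n : ℕ) :
    (sdn a n : ℝ) ≤ 10 ^ 12 * Real.log (((a : ℝ) + n) / a) := by
  have ha0 : (0 : ℝ) < (a : ℝ) := by exact_mod_cast ha
  induction n with
  | zero => simp [sdn, ha0.ne']
  | succ n ih =>
    have hn0 : (0 : ℝ) < (a : ℝ) + n := by positivity
    have h1 := NHL_ldn (a + n) (by omega)
    push_cast at h1
    have h2 : Real.log (((a : ℝ) + (n + 1)) / a) =
        Real.log (((a : ℝ) + n) / a) + Real.log (((a : ℝ) + n + 1) / (a + n)) := by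
      rw [← Real.log_mul (by positivity) (by positivity)]
      congr 1
      field_simp
      ring
    simp only [sdn]
    push_cast
    rw [h2]
    linarith

/-- comparison of an integral with `c ∫ ds/(s-1)` -/
private theorem NHL_int (a b c : ℝ) (g : ℝ → ℝ) (ha : 1 < a) (hab : a ≤ b)
    (hg : IntervalIntegrable g MeasureTheory.volume a b)
    (h : ∀ s ∈ Set.Icc a b, c / (s - 1) ≤ g s) :
    c * Real.log ((b - 1) / (a - 1)) ≤ ∫ s in a..b, g s := by
  have hi : ∫ s in a..b, c / (s - 1) = c * Real.log ((b - 1) / (a - 1)) := by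
    have h1 : ∫ s in a..b, c / (s - 1) = ∫ s in (a - 1)..(b - 1), c / s :=
      intervalIntegral.integral_comp_sub_right (fun s => c / s) 1
    rw [h1]
    have h2 : (fun s : ℝ => c / s) = fun s : ℝ => c * s⁻¹ := by
      funext s
      rw [div_eq_mul_inv]
    rw [h2, intervalIntegral.integral_const_mul, integral_inv_of_pos (by linarith) (by linarith)]
  rw [← hi]
  refine intervalIntegral.integral_mono_on hab ?_ hg h
  refine ContinuousOn.intervalIntegrable ?_
  rw [Set.uIcc_of_le hab]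
  refine ContinuousOn.div continuousOn_const (continuousOn_id.sub continuousOn_const) ?_
  intro s hs
  have : 1 < s := lt_of_lt_of_le ha hs.1
  exact (sub_pos.mpr this).ne'

private theorem NHL_iif (u A : ℝ) (F f : ℝ → ℝ) (hD : Dat u A F f) (a b : ℝ) (ha : 3 ≤ a)
    (hab : a ≤ b) (hb : b ≤ u) :
    IntervalIntegrable (fun s => f (s - 1)) MeasureTheory.volume a b := by
  refine MonotoneOn.intervalIntegrable ?_
  rw [Set.uIcc_of_le hab]
  intro s hs t ht hst
  exact hD.fm ⟨by linarith [hs.1], by linarith [hs.2]⟩ ⟨by linarith [ht.1], by linarith [ht.2]⟩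
    (by linarith)

private theorem NHL_iiF (u A : ℝ) (F f : ℝ → ℝ) (hD : Dat u A F f) (a b : ℝ) (ha : 2 ≤ a)
    (hab : a ≤ b) (hb : b ≤ u) :
    IntervalIntegrable (fun s => F (s - 1)) MeasureTheory.volume a b := by
  refine AntitoneOn.intervalIntegrable ?_
  rw [Set.uIcc_of_le hab]
  intro s hs t ht hst
  exact hD.Fa ⟨by linarith [hs.1], by linarith [hs.2]⟩ ⟨by linarith [ht.1], by linarith [ht.2]⟩
    (by linarith)

/-- `s F s` is nondecreasing on `[3, u]` -/
private theorem NHL_sF (u A : ℝ) (F f : ℝ → ℝ) (hD : Dat u A F f) (a b : ℝ) (ha : 3 ≤ a)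
    (hab : a ≤ b) (hb : b ≤ u) : a * F a ≤ b * F b := by
  have h1 := hD.Fi a b ha hab hb
  have h2 : 0 ≤ ∫ s in a..b, f (s - 1) := by
    refine intervalIntegral.integral_nonneg hab ?_
    intro s hs
    exact (hD.f1 (s - 1) (by linarith [hs.1]) (by linarith [hs.2])).1
  linarith

private theorem NHL_div (m : ℕ) : ((m / 10 ^ 12 : ℕ) : ℝ) ≤ (m : ℝ) / 10 ^ 12 := by
  have h := Nat.cast_div_le (α := ℝ) (m := m) (n := 10 ^ 12)
  rw [Nat.cast_pow] at h
  exact_mod_cast h

private theorem NHL_inv (u A : ℝ) (F f : ℝ → ℝ) (hu : 6 ≤ u) (hD : Dat u A F f) (n : ℕ) :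
    ∀ i Ll G acc : ℕ, 900 ≤ i → i + n = 1300 →
    (Ll : ℝ) ≤ 10 ^ 12 * Real.log (((i : ℝ) - 600) / 300) →
    A * (G : ℝ) ≤ 10 ^ 12 * ((i : ℝ) / 300 * F ((i : ℝ) / 300)) →
    A * (acc : ℝ) ≤ 10 ^ 12 * (((i : ℝ) / 300 + 1) * f ((i : ℝ) / 300 + 1)) →
    A * (goH n i Ll G acc : ℝ) ≤ 10 ^ 12 * (16 / 3 * f (16 / 3)) := by
  induction n with
  | zero =>
    intro i Ll G acc hi hin _ _ h3
    have hi2 : (i : ℝ) = 1300 := by
      have : i = 1300 := by omega
      rw [this]
      norm_num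
    rw [hi2] at h3
    have h4 : (1300 : ℝ) / 300 + 1 = 16 / 3 := by norm_num
    rw [h4] at h3
    simpa [goH] using h3
  | succ n ih =>
    intro i Ll G acc hi hin h1 h2 h3
    simp only [goH]
    have hA0 : 0 < A := by linarith [hD.A3]
    have hiR : (900 : ℝ) ≤ (i : ℝ) := by exact_mod_cast hi
    have hiR2 : (i : ℝ) + 1 ≤ 1300 := by
      have : i + 1 ≤ 1300 := by omega
      exact_mod_cast this
    refine ih (i + 1) _ _ _ (by omega) (by omega) ?_ ?_ ?_
    · -- the logarithm
      have h4 := NHL_ldn (i - 600) (by omega)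
      have h5 : ((i - 600 : ℕ) : ℝ) = (i : ℝ) - 600 := by
        rw [Nat.cast_sub (by omega)]
        norm_num
      rw [h5] at h4
      push_cast
      have h6 : Real.log (((i : ℝ) + 1 - 600) / 300) =
          Real.log (((i : ℝ) - 600) / 300) + Real.log (((i : ℝ) - 600 + 1) / ((i : ℝ) - 600)) := by
        have e1 : (0 : ℝ) < (i : ℝ) - 600 := by linarith
        rw [← Real.log_mul (by positivity) (by positivity)]
        congr 1
        field_simp
        ring
      rw [h6]
      linarith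
    · -- `G`
      have h4 := NHL_ldn (i - 300) (by omega)
      have h5 : ((i - 300 : ℕ) : ℝ) = (i : ℝ) - 300 := by
        rw [Nat.cast_sub (by omega)]
        norm_num
      rw [h5] at h4
      have h7 := hD.Fi ((i : ℝ) / 300) (((i : ℝ) + 1) / 300) (by linarith) (by linarith) (by linarith)
      have h8 := NHL_int ((i : ℝ) / 300) (((i : ℝ) + 1) / 300) (A * ((Ll : ℝ) / 10 ^ 12))
        (fun s => f (s - 1)) (by linarith) (by linarith)
        (NHL_iif u A F f hD _ _ (by linarith) (by linarith) (by linarith)) (by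
          intro s hs
          have hs1 := hs.1
          have hs2 := hs.2
          have hs3 : 3 ≤ s := by linarith
          rw [hD.fs (s - 1) (by linarith) (by linarith)]
          have e1 : Real.log (((i : ℝ) - 600) / 300) ≤ Real.log (s - 1 - 1) := by
            apply Real.log_le_log
            · linarith
            · linarith
          have e2 : (Ll : ℝ) / 10 ^ 12 ≤ Real.log (s - 1 - 1) := by
            rw [div_le_iff₀ (by positivity)]
            linarith
          apply div_le_div_of_nonneg_right _ (by linarith)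
          exact mul_le_mul_of_nonneg_left e2 hA0.le)
      have h9 : (((i : ℝ) + 1) / 300 - 1) / ((i : ℝ) / 300 - 1) = ((i : ℝ) - 300 + 1) / ((i : ℝ) - 300) := by
        have e1 : (0 : ℝ) < (i : ℝ) - 300 := by linarith
        have e2 : (i : ℝ) / 300 - 1 = ((i : ℝ) - 300) / 300 := by ring
        have e3 : ((i : ℝ) + 1) / 300 - 1 = ((i : ℝ) - 300 + 1) / 300 := by ring
        rw [e2, e3]
        field_simp
      rw [h9] at h8
      have h10 : A * ((Ll : ℝ) / 10 ^ 12) * ((ldn (i - 300) : ℝ) / 10 ^ 12) ≤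
          A * ((Ll : ℝ) / 10 ^ 12) * Real.log (((i : ℝ) - 300 + 1) / ((i : ℝ) - 300)) := by
        apply mul_le_mul_of_nonneg_left _
          (mul_nonneg hA0.le (div_nonneg (Nat.cast_nonneg _) (by norm_num)))
        rw [div_le_iff₀ (by norm_num)]
        linarith
      have h11 : A * (((Ll * ldn (i - 300) / 10 ^ 12 : ℕ) : ℕ) : ℝ) ≤
          10 ^ 12 * (A * ((Ll : ℝ) / 10 ^ 12) * ((ldn (i - 300) : ℝ) / 10 ^ 12)) := by
        have e1 := NHL_div (Ll * ldn (i - 300))
        rw [Nat.cast_mul] at e1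
        calc A * (((Ll * ldn (i - 300) / 10 ^ 12 : ℕ) : ℕ) : ℝ)
            ≤ A * ((Ll : ℝ) * (ldn (i - 300) : ℝ) / 10 ^ 12) := mul_le_mul_of_nonneg_left e1 hA0.le
          _ = 10 ^ 12 * (A * ((Ll : ℝ) / 10 ^ 12) * ((ldn (i - 300) : ℝ) / 10 ^ 12)) := by
              field_simp
      rw [Nat.cast_add, Nat.cast_add, Nat.cast_one, mul_add]
      linarith
    · -- `acc`
      have h4 := NHL_ldn i (by omega)
      have h7 := hD.fi ((i : ℝ) / 300 + 1) (((i : ℝ) + 1) / 300 + 1) (by linarith) (by linarith)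
        (by linarith)
      have h8 := NHL_int ((i : ℝ) / 300 + 1) (((i : ℝ) + 1) / 300 + 1) (A * ((G : ℝ) / 10 ^ 12))
        (fun s => F (s - 1)) (by linarith) (by linarith)
        (NHL_iiF u A F f hD _ _ (by linarith) (by linarith) (by linarith)) (by
          intro s hs
          have hs1 := hs.1
          have hs2 := hs.2
          have hs3 : 3 ≤ s - 1 := by linarith
          have e1 := NHL_sF u A F f hD ((i : ℝ) / 300) (s - 1) (by linarith) (by linarith)
            (by linarith)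
          rw [div_le_iff₀ (by linarith)]
          have e2 : A * ((G : ℝ) / 10 ^ 12) ≤ (i : ℝ) / 300 * F ((i : ℝ) / 300) := by
            rw [← mul_div_assoc, div_le_iff₀ (by positivity)]
            linarith
          linarith [mul_comm (F (s - 1)) (s - 1)])
      have h9 : (((i : ℝ) + 1) / 300 + 1 - 1) / ((i : ℝ) / 300 + 1 - 1) = ((i : ℝ) + 1) / (i : ℝ) := by
        have e1 : (0 : ℝ) < (i : ℝ) := by linarith
        rw [add_sub_cancel_right, add_sub_cancel_right]
        field_simp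
      rw [h9] at h8
      have h10 : A * ((G : ℝ) / 10 ^ 12) * ((ldn i : ℝ) / 10 ^ 12) ≤
          A * ((G : ℝ) / 10 ^ 12) * Real.log (((i : ℝ) + 1) / (i : ℝ)) := by
        apply mul_le_mul_of_nonneg_left _
          (mul_nonneg hA0.le (div_nonneg (Nat.cast_nonneg _) (by norm_num)))
        rw [div_le_iff₀ (by norm_num)]
        linarith
      have h11 : A * (((G * ldn i / 10 ^ 12 : ℕ) : ℕ) : ℝ) ≤
          10 ^ 12 * (A * ((G : ℝ) / 10 ^ 12) * ((ldn i : ℝ) / 10 ^ 12)) := by
        have e1 := NHL_div (G * ldn i)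
        rw [Nat.cast_mul] at e1
        calc A * (((G * ldn i / 10 ^ 12 : ℕ) : ℕ) : ℝ)
            ≤ A * ((G : ℝ) * (ldn i : ℝ) / 10 ^ 12) := mul_le_mul_of_nonneg_left e1 hA0.le
          _ = 10 ^ 12 * (A * ((G : ℝ) / 10 ^ 12) * ((ldn i : ℝ) / 10 ^ 12)) := by
              field_simp
      rw [Nat.cast_add, Nat.cast_add, Nat.cast_one, mul_add]
      linarith

theorem NHL (h1 : KER_stmt) : NHL_stmt := by
  intro u A F f hu hD
  have hA0 : 0 < A := by linarith [hD.A3]
  have hk : (1495 * 10 ^ 9 : ℝ) ≤ (goH 400 900 0 (10 ^ 12) (sdn 300 600) : ℝ) := by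
    exact_mod_cast h1.1
  have h2 := NHL_inv u A F f hu hD 400 900 0 (10 ^ 12) (sdn 300 600) le_rfl (by norm_num) (by
      have e : (((900 : ℕ) : ℝ) - 600) / 300 = 1 := by norm_num
      rw [e]
      simp) (by
      have e : (((900 : ℕ) : ℝ)) / 300 = 3 := by norm_num
      rw [e, hD.Fs 3 (by norm_num) (by norm_num)]
      push_cast
      linarith) (by
      have e : (((900 : ℕ) : ℝ)) / 300 + 1 = 4 := by norm_num
      rw [e, hD.fs 4 (by norm_num) (by norm_num)]
      have e2 := NHL_sdn 300 (by norm_num) 600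
      have e3 : (((300 : ℕ) : ℝ) + ((600 : ℕ) : ℝ)) / ((300 : ℕ) : ℝ) = 4 - 1 := by norm_num
      rw [e3] at e2
      have e4 := mul_le_mul_of_nonneg_left e2 hA0.le
      have e5 : (10 : ℝ) ^ 12 * (4 * (A * Real.log (4 - 1) / 4)) = A * (10 ^ 12 * Real.log (4 - 1)) := by
        ring
      rw [e5]
      exact e4)
  have h3 : A * (1495 * 10 ^ 9) ≤ 10 ^ 12 * (16 / 3 * f (16 / 3)) :=
    le_trans (mul_le_mul_of_nonneg_left hk hA0.le) h2
  linarith

end Pool.Agent.EC
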